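import Pool.Agent.Y55.TIG.B
import Pool.Agent.W29.ZQ.Lc
import Pool.Agent.W577.ZQ.Add
import Pool.Agent.W382.ZQ.Trv
import Pool.Agent.W804.ZQ.Emb

set_option autoImplicit false

/-!
Compact groups with nonabelian identity component have proper closed subgroups which meet every
conjugacy class.
-/

open Matrix Filter Topology

noncomputable section

namespace Pool.Agent.Y55.TIG

open Pool.Agent.W809.ZQ Pool.LatH472

/-- a closed subgroup of `U(n)` as a compact matrix group -/
def toCG {n : ℕ} (N : Subgroup (U n)) (hN : IsClosed (N : Set (U n))) :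
    Pool.Agent.TH109.CG.CGroup n where
  S :=
    { carrier := {p | ∃ u ∈ N, (u : Mt n) = p}
      mul_mem' := by
        rintro _ _ ⟨u, hu, rfl⟩ ⟨v, hv, rfl⟩
        exact ⟨u * v, N.mul_mem hu hv, rfl⟩
      one_mem' := ⟨1, N.one_mem, rfl⟩ }
  unitary := by
    rintro _ ⟨u, hu, rfl⟩
    exact u.2
  star_mem := by
    rintro _ ⟨u, hu, rfl⟩
    exact ⟨u⁻¹, N.inv_mem hu, rfl⟩
  isClosed := by
    have h1 : IsCompact ((Subtype.val : U n → Mt n) '' (N : Set (U n))) :=
      hN.isCompact.image continuous_subtype_val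
    have h2 : ((Subtype.val : U n → Mt n) '' (N : Set (U n))) = {p | ∃ u ∈ N, (u : Mt n) = p} := by
      ext p
      simp [Set.mem_image]
    rw [h2] at h1
    exact h1.isClosed

theorem comm_nhds {n : ℕ} (N : Subgroup (U n)) (hN : IsClosed (N : Set (U n)))
    (hcomm : ∀ X ∈ LL N, ∀ Y ∈ LL N, X * Y = Y * X) :
    ∃ O ∈ 𝓝 (1 : U n), ∀ g ∈ N, g ∈ O → ∀ h ∈ N, h ∈ O → g * h = h * g := by
  have hADD : S_ADD := Pool.Agent.W577.ZQ.add
  have hLC : S_LC := Pool.Agent.W29.ZQ.Lc.lc hADD Pool.Agent.W382.ZQ.trv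
  let M := LS hADD N hN
  let bas := Module.finBasis ℝ M
  let Y : Fin (Module.finrank ℝ M) → Mt n := fun j => (bas j : Mt n)
  have hY : ∀ j, Y j ∈ LL N := fun j => (bas j).2
  have hspan : ∀ X ∈ LL N, X ∈ Submodule.span ℝ (Set.range Y) := by
    intro X hX
    have h1 : (⟨X, hX⟩ : M) ∈ Submodule.span ℝ (Set.range bas) := by
      rw [bas.span_eq]; exact Submodule.mem_top
    have h2 := Submodule.mem_map_of_mem (f := M.subtype) h1
    rw [Submodule.map_span, ← Set.range_comp] at h2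
    exact h2
  obtain ⟨O, hO, h⟩ := hLC n N hN _ Y hY hspan 1 one_pos
  refine ⟨O, hO, fun g hg hgO k hk hkO => ?_⟩
  obtain ⟨t, -, ht⟩ := h g hg hgO
  obtain ⟨s, -, hs⟩ := h k hk hkO
  have h1 : ∀ i j, Commute (Y i) (Y j) := fun i j => hcomm _ (hY i) _ (hY j)
  have h2 : ∀ i, Commute (Y i) (PE Y s) := fun i => (PE_commute (fun j => h1 j i) s).symm
  have h3 : Commute (PE Y t) (PE Y s) := PE_commute h2 t
  apply Subtype.ext
  show (g : Mt n) * k = k * g
  rw [ht, hs]
  exact h3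

section

variable (B : Type) [Group B] [TopologicalSpace B] [IsTopologicalGroup B]

theorem comm_of_nhds (C : Subgroup B) (hC : IsConnected (C : Set B)) {n : ℕ} (ρ : B →* U n)
    (O : Set B) (hO : O ∈ 𝓝 (1 : B))
    (h : ∀ x ∈ C, x ∈ O → ∀ y ∈ C, y ∈ O → ρ x * ρ y = ρ y * ρ x) :
    ∀ x ∈ C, ∀ y ∈ C, ρ x * ρ y = ρ y * ρ x := by
  have hcs : ConnectedSpace C := isConnected_iff_connectedSpace.1 hC
  let S : Set C := {x | (x : B) ∈ O}
  have hS : S ∈ 𝓝 (1 : C) := by
    have : ContinuousAt (Subtype.val : C → B) 1 := continuous_subtype_val.continuousAt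
    exact this hO
  have hop : IsOpen ((Subgroup.closure S : Subgroup C) : Set C) := by
    apply Subgroup.isOpen_of_mem_nhds (g := 1)
    exact mem_of_superset hS Subgroup.subset_closure
  have hcl : IsClopen ((Subgroup.closure S : Subgroup C) : Set C) :=
    ⟨Subgroup.isClosed_of_isOpen _ hop, hop⟩
  have htop : ∀ x : C, x ∈ Subgroup.closure S := by
    intro x
    have h1 := hcl.eq_univ ⟨1, Subgroup.one_mem _⟩
    have h2 : x ∈ ((Subgroup.closure S : Subgroup C) : Set C) := by rw [h1]; trivial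
    exact h2
  have key : ∀ x : C, ∀ y : C, Commute (ρ x) (ρ y) := by
    intro x y
    have hx := htop x
    have hy := htop y
    induction hx using Subgroup.closure_induction with
    | mem x hx =>
      induction hy using Subgroup.closure_induction with
      | mem y hy => exact h x x.2 hx y y.2 hy
      | one => rw [Subgroup.coe_one, map_one]; exact Commute.one_right _
      | mul y z _ _ h1 h2 => rw [Subgroup.coe_mul, map_mul]; exact h1.mul_right h2
      | inv y _ h1 => rw [Subgroup.coe_inv, map_inv]; exact h1.inv_right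
    | one => rw [Subgroup.coe_one, map_one]; exact Commute.one_left _
    | mul x z _ _ h1 h2 => rw [Subgroup.coe_mul, map_mul]; exact h1.mul_left h2
    | inv x _ h1 => rw [Subgroup.coe_inv, map_inv]; exact h1.inv_left
  intro x hx y hy
  exact key ⟨x, hx⟩ ⟨y, hy⟩

variable [CompactSpace B] [T2Space B]

theorem exists_U (k : B) (hk : k ≠ 1) : ∃ (n : ℕ) (ρ : B →* U n), Continuous ρ ∧ ρ k ≠ 1 := by
  obtain ⟨ι, _, _, ρ, hρ, hρk⟩ := (PW : StPW) B k hk
  let e : ι ≃ Fin (Fintype.card ι) := Fintype.equivFin ι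
  let f : Matrix.unitaryGroup ι ℂ →* U (Fintype.card ι) :=
    { toFun := fun A => ⟨(A : Matrix ι ι ℂ).submatrix e.symm e.symm,
        Pool.Agent.W804.ZQ.mem_reindex e _ A.2⟩
      map_one' := by
        apply Subtype.ext
        exact Matrix.submatrix_one_equiv e.symm
      map_mul' := fun A A' => by
        apply Subtype.ext
        show ((A : Matrix ι ι ℂ) * (A' : Matrix ι ι ℂ)).submatrix e.symm e.symm = _
        exact (Matrix.submatrix_mul_equiv _ _ _ _ _).symm }
  have hf : Continuous f := by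
    refine Continuous.subtype_mk ?_ _
    exact continuous_subtype_val.matrix_submatrix e.symm e.symm
  refine ⟨_, f.comp ρ, hf.comp hρ, fun h => hρk ?_⟩
  have h1 : ((ρ k : Matrix.unitaryGroup ι ℂ) : Matrix ι ι ℂ).submatrix e.symm e.symm = 1 :=
    congrArg Subtype.val h
  apply Subtype.ext
  ext i j
  have h2 := congrFun (congrFun h1 (e i)) (e j)
  simp only [Matrix.submatrix_apply, Equiv.symm_apply_apply] at h2
  rw [h2]
  show (1 : Matrix (Fin (Fintype.card ι)) (Fin (Fintype.card ι)) ℂ) (e i) (e j) = (1 : Matrix ι ι ℂ) i j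
  by_cases hij : i = j
  · rw [hij, Matrix.one_apply_eq, Matrix.one_apply_eq]
  · rw [Matrix.one_apply_ne hij, Matrix.one_apply_ne (fun h => hij (e.injective h))]

/-- a compact group with nonabelian identity component has a proper closed subgroup which meets
every conjugacy class -/
theorem exists_meet_compact (C : Subgroup B) (hC : IsConnected (C : Set B))
    (a b : B) (ha : a ∈ C) (hb : b ∈ C) (hab : a * b ≠ b * a) :
    ∃ H : Subgroup B, IsClosed (H : Set B) ∧ H ≠ ⊤ ∧ ∀ x, ∃ y, y * x * y⁻¹ ∈ H := by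
  have hk : a * b * (b * a)⁻¹ ≠ 1 := fun h => hab (mul_inv_eq_one.1 h)
  obtain ⟨n, ρ, hρ, hρk⟩ := exists_U B _ hk
  have hρab : ρ a * ρ b ≠ ρ b * ρ a := by
    intro h
    apply hρk
    rw [map_mul, map_inv, map_mul, map_mul, h, mul_inv_cancel]
  have hNcl : IsClosed ((ρ.range : Subgroup (U n)) : Set (U n)) := by
    rw [MonoidHom.coe_range]
    exact (isCompact_range hρ).isClosed
  let G := toCG ρ.range hNcl
  have hmemG : ∀ p : Mt n, p ∈ G.S ↔ ∃ x : B, (ρ x : Mt n) = p := by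
    intro p
    constructor
    · rintro ⟨u, ⟨x, rfl⟩, rfl⟩
      exact ⟨x, rfl⟩
    · rintro ⟨x, rfl⟩
      exact ⟨ρ x, ⟨x, rfl⟩, rfl⟩
  have hnc : ∃ X ∈ Pool.Agent.TH109.CG.lieAlg G, ∃ Y ∈ Pool.Agent.TH109.CG.lieAlg G,
      X * Y ≠ Y * X := by
    by_contra hcon
    push Not at hcon
    obtain ⟨O, hO, h⟩ := comm_nhds ρ.range hNcl (fun X hX Y hY => hcon X hX Y hY)
    have hO' : ρ ⁻¹' O ∈ 𝓝 (1 : B) := by
      apply hρ.continuousAt
      rwa [map_one]
    exact hρab (comm_of_nhds B C hC ρ (ρ ⁻¹' O) hO'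
      (fun x _ hxO y _ hyO => h _ ⟨x, rfl⟩ hxO _ ⟨y, rfl⟩ hyO) a ha b hb)
  obtain ⟨H, hHG, hHcl, h1, hmul, hstar, hmeet, p, hpG, hpH⟩ := exists_meet G hnc
  refine ⟨{ carrier := {x | (ρ x : Mt n) ∈ H}
            mul_mem' := ?_
            one_mem' := ?_
            inv_mem' := ?_ }, ?_, ?_, ?_⟩
  · intro x y hx hy
    show ((ρ (x * y) : U n) : Mt n) ∈ H
    rw [map_mul]
    exact hmul _ hx _ hy
  · show ((ρ 1 : U n) : Mt n) ∈ H
    rw [map_one]
    exact h1
  · intro x hx
    show ((ρ x⁻¹ : U n) : Mt n) ∈ H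
    rw [map_inv]
    exact hstar _ hx
  · exact hHcl.preimage (continuous_subtype_val.comp hρ)
  · intro htop
    obtain ⟨x, rfl⟩ := (hmemG p).1 hpG
    apply hpH
    have : x ∈ (⊤ : Subgroup B) := trivial
    rw [← htop] at this
    exact this
  · intro x
    obtain ⟨q, hq, hqx⟩ := hmeet (ρ x) ((hmemG _).2 ⟨x, rfl⟩)
    obtain ⟨y, rfl⟩ := (hmemG q).1 hq
    refine ⟨y, ?_⟩
    show ((ρ (y * x * y⁻¹) : U n) : Mt n) ∈ H
    rw [map_mul, map_mul, map_inv]
    exact hqx

end

end Pool.Agent.Y55.TIG
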