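import Mathlib

set_option autoImplicit false

/-!
Closed subgroups meeting every conjugacy class: finite groups, profinite groups, and compact groups
with abelian identity component.
-/

open Filter Topology

namespace Pool.Agent.Y55.TIG

/-- Jordan: a proper subgroup of a finite group misses a conjugacy class -/
theorem jordan_finite {Q : Type*} [Group Q] [Finite Q] (H : Subgroup Q)
    (h : ∀ x : Q, ∃ y : Q, y * x * y⁻¹ ∈ H) : H = ⊤ := by
  classical
  have : Fintype Q := Fintype.ofFinite Q
  have hfix : ∀ x : Q, 0 < Fintype.card (MulAction.fixedBy (Q ⧸ H) x) := by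
    intro x
    obtain ⟨y, hy⟩ := h x
    rw [Fintype.card_pos_iff]
    refine ⟨⟨((y⁻¹ : Q) : Q ⧸ H), ?_⟩⟩
    rw [MulAction.mem_fixedBy]
    show ((x * y⁻¹ : Q) : Q ⧸ H) = ((y⁻¹ : Q) : Q ⧸ H)
    rw [eq_comm, QuotientGroup.eq, inv_inv, ← mul_assoc]
    exact hy
  have hb := MulAction.sum_card_fixedBy_eq_card_orbits_mul_card_group Q (Q ⧸ H)
  have horb : Fintype.card (Quotient (MulAction.orbitRel Q (Q ⧸ H))) = 1 := by
    rw [Fintype.card_eq_one_iff_nonempty_unique]
    have hs : Subsingleton (Quotient (MulAction.orbitRel Q (Q ⧸ H))) := by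
      rw [← MulAction.orbitRel.Quotient]
      exact (MulAction.pretransitive_iff_subsingleton_quotient Q (Q ⧸ H)).1 inferInstance
    exact ⟨⟨⟨⟦((1 : Q) : Q ⧸ H)⟧⟩, fun _ => Subsingleton.elim _ _⟩⟩
  rw [horb, one_mul] at hb
  have hone : Fintype.card (MulAction.fixedBy (Q ⧸ H) (1 : Q)) = 1 := by
    by_contra hne
    have h1 : ∀ x ∈ (Finset.univ : Finset Q), 1 ≤ Fintype.card (MulAction.fixedBy (Q ⧸ H) x) :=
      fun x _ => hfix x
    have h2 : ∑ _x : Q, 1 < ∑ x : Q, Fintype.card (MulAction.fixedBy (Q ⧸ H) x) := by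
      apply Finset.sum_lt_sum h1
      exact ⟨1, Finset.mem_univ _, lt_of_le_of_ne (hfix 1) (Ne.symm hne)⟩
    rw [hb] at h2
    simp at h2
  rw [eq_top_iff]
  intro x _
  obtain ⟨z, hz⟩ := Fintype.card_eq_one_iff.1 hone
  have hmem : ∀ q : Q ⧸ H, q ∈ MulAction.fixedBy (Q ⧸ H) (1 : Q) := fun q => one_smul Q q
  have e1 := hz ⟨((x : Q) : Q ⧸ H), hmem _⟩
  have e2 := hz ⟨((1 : Q) : Q ⧸ H), hmem _⟩
  have e3 : ((x : Q) : Q ⧸ H) = ((1 : Q) : Q ⧸ H) := congrArg Subtype.val (e1.trans e2.symm)
  rw [eq_comm, QuotientGroup.eq, inv_one, one_mul] at e3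
  exact e3

/-- a proper closed subgroup of a profinite group misses a conjugacy class -/
theorem jordan_profinite {Q : Type*} [Group Q] [TopologicalSpace Q] [IsTopologicalGroup Q]
    [CompactSpace Q] [TotallyDisconnectedSpace Q] (H : Subgroup Q) (hH : IsClosed (H : Set Q))
    (h : ∀ x : Q, ∃ y : Q, y * x * y⁻¹ ∈ H) : H = ⊤ := by
  rw [eq_top_iff]
  intro g _
  by_contra hg
  -- an open normal subgroup `N` with `g N ∩ H = ∅`
  have hU : IsOpen ((fun x : Q => g * x) ⁻¹' (H : Set Q)ᶜ) :=
    hH.isOpen_compl.preimage (by fun_prop)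
  obtain ⟨N, hN⟩ := ProfiniteGrp.exist_openNormalSubgroup_sub_open_nhds_of_one hU
    (by simpa using hg)
  have hNn : (N.toOpenSubgroup.toSubgroup).Normal := N.isNormal'
  have hfin : Finite (Q ⧸ N.toOpenSubgroup.toSubgroup) :=
    Subgroup.quotient_finite_of_isOpen _ N.toOpenSubgroup.isOpen'
  set π := QuotientGroup.mk' N.toOpenSubgroup.toSubgroup with hπ
  have h1 : H.map π = ⊤ := by
    apply jordan_finite
    intro x
    obtain ⟨x, rfl⟩ := QuotientGroup.mk'_surjective _ x
    obtain ⟨y, hy⟩ := h x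
    refine ⟨π y, ?_⟩
    rw [← map_inv, ← map_mul, ← map_mul]
    exact ⟨_, hy, rfl⟩
  have h2 : π g ∈ H.map π := by rw [h1]; trivial
  obtain ⟨k, hk, hkg⟩ := h2
  have h3 : g⁻¹ * k ∈ N.toOpenSubgroup.toSubgroup := by
    have : (QuotientGroup.mk' N.toOpenSubgroup.toSubgroup) g =
      (QuotientGroup.mk' N.toOpenSubgroup.toSubgroup) k := hkg.symm
    exact QuotientGroup.eq.1 this
  have h4 := hN h3
  simp only [Set.mem_preimage, Set.mem_compl_iff, SetLike.mem_coe, mul_inv_cancel_left] at h4
  exact h4 hk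

/-- compact groups with a closed abelian normal subgroup whose quotient is profinite -/
theorem eq_top_of_abelian {G : Type*} [Group G] [TopologicalSpace G] [IsTopologicalGroup G]
    [CompactSpace G] [T2Space G] (N : Subgroup G) [hN : N.Normal] (hNc : IsClosed (N : Set G))
    (hab : ∀ a ∈ N, ∀ b ∈ N, a * b = b * a) (htd : TotallyDisconnectedSpace (G ⧸ N))
    (H : Subgroup G) (hH : IsClosed (H : Set G)) (h : ∀ x : G, ∃ y : G, y * x * y⁻¹ ∈ H) :
    H = ⊤ := by
  have hT2 : T2Space (G ⧸ N) := inferInstance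
  set π := QuotientGroup.mk' N with hπ
  have hπc : Continuous π := QuotientGroup.continuous_mk
  have h1 : H.map π = ⊤ := by
    apply jordan_profinite
    · exact (hH.isCompact.image hπc).isClosed
    · intro x
      obtain ⟨x, rfl⟩ := QuotientGroup.mk'_surjective _ x
      obtain ⟨y, hy⟩ := h x
      refine ⟨π y, ?_⟩
      rw [← map_inv, ← map_mul, ← map_mul]
      exact ⟨_, hy, rfl⟩
  -- every element is a product
  have h2 : ∀ g : G, ∃ k ∈ H, ∃ n ∈ N, g = k * n := by
    intro g
    have h3 : π g ∈ H.map π := by rw [h1]; trivial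
    obtain ⟨k, hk, hkg⟩ := h3
    have h4 : (QuotientGroup.mk' N) k = (QuotientGroup.mk' N) g := hkg
    exact ⟨k, hk, k⁻¹ * g, QuotientGroup.eq.1 h4, by group⟩
  have h3 : N ≤ H := by
    intro a ha
    obtain ⟨y, hy⟩ := h a
    obtain ⟨k, hk, n, hn, rfl⟩ := h2 y
    have e : k * n * a * (k * n)⁻¹ = k * a * k⁻¹ := by
      have : n * a = a * n := hab n hn a ha
      calc k * n * a * (k * n)⁻¹ = k * (n * a) * n⁻¹ * k⁻¹ := by group
        _ = k * a * k⁻¹ := by rw [this]; group
    rw [e] at hy
    have h5 := H.mul_mem (H.mul_mem (H.inv_mem hk) hy) hk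
    have e2 : k⁻¹ * (k * a * k⁻¹) * k = a := by group
    rwa [e2] at h5
  rw [eq_top_iff]
  intro g _
  obtain ⟨k, hk, n, hn, rfl⟩ := h2 g
  exact H.mul_mem hk (h3 hn)

/-- the quotient by the identity component is totally disconnected -/
theorem totallyDisconnected_quotient (G : Type*) [Group G] [TopologicalSpace G]
    [IsTopologicalGroup G] :
    TotallyDisconnectedSpace (G ⧸ Subgroup.connectedComponentOfOne G) := by
  rw [totallyDisconnectedSpace_iff_connectedComponent_singleton]
  intro q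
  obtain ⟨g, rfl⟩ := QuotientGroup.mk_surjective q
  have hfib : ∀ g : G, ((QuotientGroup.mk : G → G ⧸ Subgroup.connectedComponentOfOne G) ⁻¹' {(g : G ⧸ Subgroup.connectedComponentOfOne G)})
      = (fun x => g * x) '' connectedComponent (1 : G) := by
    intro g
    ext x
    constructor
    · intro hx
      have h1 : (x : G ⧸ Subgroup.connectedComponentOfOne G) = g := hx
      have h2 := QuotientGroup.eq.1 h1.symm
      exact ⟨g⁻¹ * x, h2, by simp⟩
    · rintro ⟨y, hy, rfl⟩
      show ((g * y : G) : G ⧸ Subgroup.connectedComponentOfOne G) = g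
      rw [eq_comm, QuotientGroup.eq, inv_mul_cancel_left]
      exact hy
  have hconn : ∀ t : G ⧸ Subgroup.connectedComponentOfOne G, IsConnected
      ((QuotientGroup.mk : G → G ⧸ Subgroup.connectedComponentOfOne G) ⁻¹' {t}) := by
    intro t
    obtain ⟨g, rfl⟩ := QuotientGroup.mk_surjective t
    rw [hfib]
    exact isConnected_connectedComponent.image _ (by fun_prop)
  have h1 := (QuotientGroup.isQuotientMap_mk
    (Subgroup.connectedComponentOfOne G)).isCoinducing.preimage_connectedComponent hconn g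
  apply Set.Subset.antisymm
  · intro t ht
    obtain ⟨x, rfl⟩ := QuotientGroup.mk_surjective t
    have h2 : x ∈ connectedComponent g := by
      rw [← h1]
      exact ht
    have h3 : connectedComponent g = (fun x => g * x) '' connectedComponent (1 : G) := by
      have := smul_connectedComponent g (1 : G)
      rw [mul_one] at this
      rw [← this]
      rfl
    rw [h3, ← hfib g] at h2
    exact h2
  · rintro _ rfl
    exact mem_connectedComponent

end Pool.Agent.Y55.TIG
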