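import Mathlib

set_option autoImplicit false

/-!
Invariant brackets on Euclidean spaces: every orthogonal automorphism preserves a self-centralizing
abelian subspace, and self-centralizing abelian subspaces contain regular elements.
-/

namespace Pool.Agent.Y55.TIG

open Module

variable {V : Type*} [NormedAddCommGroup V] [InnerProductSpace ℝ V]

/-- a Lie bracket on a Euclidean space for which the inner product is invariant -/
structure IBrk (V : Type*) [NormedAddCommGroup V] [InnerProductSpace ℝ V] where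
  b : V →ₗ[ℝ] V →ₗ[ℝ] V
  self : ∀ x, b x x = 0
  jac : ∀ x y z, b x (b y z) = b (b x y) z + b y (b x z)
  inv : ∀ x y z, inner ℝ (b x y) z = inner ℝ x (b y z)

variable (L : IBrk V)

theorem IBrk.skew (x y : V) : L.b x y = - L.b y x := by
  have h := L.self (x + y)
  simp only [map_add, LinearMap.add_apply, L.self, zero_add, add_zero] at h
  exact eq_neg_of_add_eq_zero_left (by rw [add_comm]; exact h)

/-- abelian subspace -/
def Ab (W : Submodule ℝ V) : Prop := ∀ x ∈ W, ∀ y ∈ W, L.b x y = 0

/-- the centralizer of a subspace is contained in it -/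
def SC (W : Submodule ℝ V) : Prop := ∀ x, (∀ y ∈ W, L.b y x = 0) → x ∈ W

theorem exists_max [FiniteDimensional ℝ V] (P : Submodule ℝ V → Prop) (W0 : Submodule ℝ V)
    (h0 : P W0) : ∃ W, P W ∧ ∀ W', P W' → W ≤ W' → W' ≤ W := by
  obtain ⟨W, hW, h⟩ := (set_has_maximal_iff_noetherian (R := ℝ) (M := V)).2 inferInstance
    {W | P W} ⟨W0, h0⟩
  refine ⟨W, hW, fun W' hW' hle => ?_⟩
  by_contra hcon
  exact h W' hW' (lt_of_le_not_ge hle hcon)

theorem ab_span (S : Set V) (h : ∀ x ∈ S, ∀ y ∈ S, L.b x y = 0) :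
    Ab L (Submodule.span ℝ S) := by
  intro x hx y hy
  induction hx using Submodule.span_induction with
  | mem x hx =>
    induction hy using Submodule.span_induction with
    | mem y hy => exact h x hx y hy
    | zero => simp
    | add y z _ _ h1 h2 => rw [map_add, h1, h2, add_zero]
    | smul c y _ h1 => rw [map_smul, h1, smul_zero]
  | zero => simp
  | add x z _ _ h1 h2 => rw [map_add, LinearMap.add_apply, h1, h2, add_zero]
  | smul c x _ h1 => rw [map_smul, LinearMap.smul_apply, h1, smul_zero]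

/-- every orthogonal automorphism preserves a self-centralizing abelian subspace -/
theorem exists_inv [FiniteDimensional ℝ V] (σ : V →ₗ[ℝ] V)
    (hi : ∀ x y, inner ℝ (σ x) (σ y) = inner ℝ x y)
    (hb : ∀ x y, σ (L.b x y) = L.b (σ x) (σ y)) :
    ∃ W : Submodule ℝ V, Ab L W ∧ (∀ x ∈ W, σ x ∈ W) ∧ SC L W := by
  -- a maximal abelian subspace of the fixed space
  obtain ⟨s, ⟨hs1, hs2⟩, hs3⟩ := exists_max
    (fun W : Submodule ℝ V => (∀ x ∈ W, σ x = x) ∧ Ab L W) ⊥
    ⟨by intro x hx; rw [Submodule.mem_bot] at hx; rw [hx, map_zero],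
      by intro x hx y _; rw [Submodule.mem_bot] at hx; rw [hx]; simp⟩
  have hsmax : ∀ w, σ w = w → (∀ y ∈ s, L.b y w = 0) → w ∈ s := by
    intro w hw1 hw2
    have h1 : (∀ x ∈ Submodule.span ℝ ((s : Set V) ∪ {w}), σ x = x) ∧
        Ab L (Submodule.span ℝ ((s : Set V) ∪ {w})) := by
      constructor
      · intro x hx
        induction hx using Submodule.span_induction with
        | mem x hx =>
          rcases hx with hx | hx
          · exact hs1 x hx
          · rw [Set.mem_singleton_iff] at hx; rw [hx, hw1]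
        | zero => simp
        | add x y _ _ h1 h2 => rw [map_add, h1, h2]
        | smul c x _ h1 => rw [map_smul, h1]
      · apply ab_span
        rintro x (hx | hx) y (hy | hy)
        · exact hs2 x hx y hy
        · rw [Set.mem_singleton_iff] at hy; rw [hy]; exact hw2 x hx
        · rw [Set.mem_singleton_iff] at hx; rw [hx, L.skew, hw2 y hy, neg_zero]
        · rw [Set.mem_singleton_iff] at hx hy; rw [hx, hy, L.self]
    have h2 : s ≤ Submodule.span ℝ ((s : Set V) ∪ {w}) := fun x hx =>
      Submodule.subset_span (Or.inl hx)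
    exact hs3 _ h1 h2 (Submodule.subset_span (Or.inr rfl))
  -- a maximal invariant abelian subspace above it
  obtain ⟨a, ⟨ha0, ha1, ha2⟩, ha3⟩ := exists_max
    (fun W : Submodule ℝ V => s ≤ W ∧ (∀ x ∈ W, σ x ∈ W) ∧ Ab L W) s
    ⟨le_refl _, fun x hx => by rw [hs1 x hx]; exact hx, hs2⟩
  refine ⟨a, ha2, ha1, ?_⟩
  have hinj : Function.Injective σ := by
    intro x y hxy
    have h : inner ℝ (σ (x - y)) (σ (x - y)) = inner ℝ (x - y) (x - y) := hi _ _
    rw [map_sub, hxy, sub_self, inner_zero_left] at h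
    exact sub_eq_zero.1 (inner_self_eq_zero.1 h.symm)
  -- `σ` maps `a` onto `a`
  have hsurj : ∀ y ∈ a, ∃ x ∈ a, σ x = y := by
    intro y hy
    have h1 : Function.Injective (σ.restrict ha1) := by
      intro u v huv
      apply Subtype.ext
      apply hinj
      exact congrArg Subtype.val huv
    have h2 := LinearMap.surjective_of_injective h1
    obtain ⟨x, hx⟩ := h2 ⟨y, hy⟩
    exact ⟨x, x.2, congrArg Subtype.val hx⟩
  -- the centralizer of `a`, orthogonal part
  let U : Submodule ℝ V :=
    { carrier := {x | (∀ y ∈ a, L.b y x = 0) ∧ x ∈ aᗮ}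
      add_mem' := by
        rintro x y ⟨h1, h2⟩ ⟨h3, h4⟩
        exact ⟨fun z hz => by rw [map_add, h1 z hz, h3 z hz, add_zero], aᗮ.add_mem h2 h4⟩
      zero_mem' := ⟨fun z _ => map_zero _, aᗮ.zero_mem⟩
      smul_mem' := by
        rintro c x ⟨h1, h2⟩
        exact ⟨fun z hz => by rw [map_smul, h1 z hz, smul_zero], aᗮ.smul_mem c h2⟩ }
  have hU1 : ∀ x ∈ U, ∀ y ∈ a, L.b y x = 0 := fun x hx => hx.1
  have hU2 : ∀ x ∈ U, ∀ y ∈ a, inner ℝ y x = 0 := fun x hx => (Submodule.mem_orthogonal _ _).1 hx.2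
  have hU3 : ∀ x ∈ U, σ x ∈ U := by
    intro x hx
    refine ⟨fun y hy => ?_, (Submodule.mem_orthogonal _ _).2 fun y hy => ?_⟩
    · obtain ⟨z, hz, rfl⟩ := hsurj y hy
      rw [← hb, hU1 x hx z hz, map_zero]
    · obtain ⟨z, hz, rfl⟩ := hsurj y hy
      rw [hi, hU2 x hx z hz]
  have hUbot : U = ⊥ := by
    by_contra hne
    have hnt : Nontrivial U := Submodule.nontrivial_iff_ne_bot.2 hne
    let σU : U →ₗ[ℝ] U := σ.restrict hU3
    have hσU : ∀ x : U, ((σU x : U) : V) = σ x := fun _ => rfl
    have e1 : ∀ x y : U, inner ℝ (σU x) (σU y) = inner ℝ x y := fun x y => hi x y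
    let S : U →ₗ[ℝ] U := σU + LinearMap.adjoint σU
    have hS : S.IsSymmetric := by
      intro x y
      show inner ℝ (σU x + LinearMap.adjoint σU x) y = inner ℝ x (σU y + LinearMap.adjoint σU y)
      rw [inner_add_left, inner_add_right, LinearMap.adjoint_inner_left,
        LinearMap.adjoint_inner_right]
      ring
    have hev := hS.hasEigenvalue_iSup_of_finiteDimensional
    obtain ⟨c, hc⟩ := hev.exists_hasEigenvector
    have hc1 := hc.apply_eq_smul
    have hc2 := hc.2
    have e2 : σU ∘ₗ LinearMap.adjoint σU = LinearMap.id := by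
      have h : LinearMap.adjoint σU ∘ₗ σU = LinearMap.id := by
        apply LinearMap.ext
        intro x
        apply ext_inner_left ℝ
        intro y
        rw [LinearMap.comp_apply, LinearMap.adjoint_inner_right, e1]
        rfl
      exact (LinearMap.comp_eq_id_comm ℝ U).1 h
    have e3 : σU (LinearMap.adjoint σU c) = c := congrArg (fun f : U →ₗ[ℝ] U => f c) e2
    obtain ⟨ν, hν⟩ : ∃ ν : ℝ, S c = ν • c := ⟨_, hc1⟩
    have e4 : σU (σU c) = ν • σU c - c := by
      have h1 : σU (S c) = σU (σU c) + c := by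
        show σU (σU c + LinearMap.adjoint σU c) = _
        rw [map_add, e3]
      rw [hν, map_smul] at h1
      rw [h1, add_sub_cancel_right]
    have e5 : σ (σ (c : V)) = ν • σ (c : V) - c := congrArg Subtype.val e4
    set d : V := σ (c : V) with hd
    have hcU : (c : V) ∈ U := c.2
    have hdU : d ∈ U := hU3 _ hcU
    set w : V := L.b c d with hw
    have hσw : σ w = w := by
      rw [hw, hb, ← hd, e5, map_sub, map_smul, L.self, smul_zero, zero_sub, L.skew, neg_neg]
    have hsw : ∀ y ∈ s, L.b y w = 0 := by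
      intro y hy
      rw [hw, L.jac, hU1 _ hcU y (ha0 hy), hU1 _ hdU y (ha0 hy)]
      simp
    have hws : w ∈ s := hsmax w hσw hsw
    have hdw : L.b d w = 0 := by
      rw [L.skew, hU1 _ hdU w (ha0 hws), neg_zero]
    have hw0 : w = 0 := by
      have h1 : inner ℝ w w = (0 : ℝ) := by
        conv_lhs => rw [hw]
        rw [L.inv, ← hw, hdw, inner_zero_right]
      exact inner_self_eq_zero.1 h1
    have hbig : s ≤ Submodule.span ℝ ((a : Set V) ∪ {(c : V), d}) ∧
        (∀ x ∈ Submodule.span ℝ ((a : Set V) ∪ {(c : V), d}),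
          σ x ∈ Submodule.span ℝ ((a : Set V) ∪ {(c : V), d})) ∧
        Ab L (Submodule.span ℝ ((a : Set V) ∪ {(c : V), d})) := by
      refine ⟨fun x hx => Submodule.subset_span (Or.inl (ha0 hx)), ?_, ?_⟩
      · intro x hx
        induction hx using Submodule.span_induction with
        | mem x hx =>
          rcases hx with hx | hx | hx
          · exact Submodule.subset_span (Or.inl (ha1 x hx))
          · rw [hx]; exact Submodule.subset_span (Or.inr (Or.inr rfl))
          · rw [Set.mem_singleton_iff] at hx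
            rw [hx, e5]
            exact Submodule.sub_mem _ (Submodule.smul_mem _ _ (Submodule.subset_span
              (Or.inr (Or.inr rfl)))) (Submodule.subset_span (Or.inr (Or.inl rfl)))
        | zero => simp
        | add x y _ _ h1 h2 => rw [map_add]; exact Submodule.add_mem _ h1 h2
        | smul r x _ h1 => rw [map_smul]; exact Submodule.smul_mem _ _ h1
      · apply ab_span
        have hcd : L.b c d = 0 := hw0
        have key : ∀ x ∈ a, ∀ y ∈ U, L.b y x = 0 := fun x hx y hy => by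
          rw [L.skew, hU1 y hy x hx, neg_zero]
        rintro x (hx | hx | hx) y (hy | hy | hy)
        · exact ha2 x hx y hy
        · rw [hy]; exact hU1 _ hcU x hx
        · rw [Set.mem_singleton_iff] at hy; rw [hy]; exact hU1 _ hdU x hx
        · rw [hx]; exact key y hy _ hcU
        · rw [hx, hy, L.self]
        · rw [Set.mem_singleton_iff] at hy; rw [hx, hy, hcd]
        · rw [Set.mem_singleton_iff] at hx; rw [hx]; exact key y hy _ hdU
        · rw [Set.mem_singleton_iff] at hx; rw [hx, hy, L.skew, hcd, neg_zero]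
        · rw [Set.mem_singleton_iff] at hx hy; rw [hx, hy, L.self]
    have h1 := ha3 _ hbig (fun x hx => Submodule.subset_span (Or.inl hx))
    have h2 : (c : V) ∈ a := h1 (Submodule.subset_span (Or.inr (Or.inl rfl)))
    have h3 : inner ℝ (c : V) (c : V) = (0 : ℝ) := hU2 _ hcU _ h2
    apply hc2
    exact Subtype.ext (inner_self_eq_zero.1 h3)
  -- conclusion
  intro x hx
  obtain ⟨x1, hx1, x2, hx2, rfl⟩ := Submodule.exists_add_mem_mem_orthogonal (K := a) x
  have h1 : x2 ∈ U := by
    refine ⟨fun y hy => ?_, hx2⟩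
    have h2 := hx y hy
    rw [map_add, ha2 y hy x1 hx1, zero_add] at h2
    exact h2
  rw [hUbot, Submodule.mem_bot] at h1
  rw [h1, add_zero]
  exact hx1

theorem reg_aux [FiniteDimensional ℝ V] (P Q : V →ₗ[ℝ] V)
    (hP : ∀ x y, inner ℝ (P x) y = - inner ℝ x (P y))
    (hQ : ∀ x y, inner ℝ (Q x) y = - inner ℝ x (Q y))
    (hPQ : ∀ x, P (Q x) = Q (P x)) :
    ∃ e : ℝ, e ≠ 0 ∧ ∀ v, P v + e • Q v = 0 → Q v = 0 := by
  by_contra hcon
  push Not at hcon
  have h1 : ∀ n : ℕ, ∃ v, P v + ((n : ℝ) + 1) • Q v = 0 ∧ Q v ≠ 0 := fun n =>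
    hcon ((n : ℝ) + 1) (by positivity)
  choose v hv1 hv2 using h1
  have hw : ∀ n, P (Q (v n)) = -(((n : ℝ) + 1) • Q (Q (v n))) := by
    intro n
    rw [hPQ, eq_neg_of_add_eq_zero_left (hv1 n), map_neg, map_smul]
  have hne : ∀ n, Q (Q (v n)) ≠ 0 := by
    intro n h
    have h2 := hQ (Q (v n)) (v n)
    rw [h, inner_zero_left] at h2
    have h3 : inner ℝ (Q (v n)) (Q (v n)) = (0 : ℝ) := by linarith
    exact hv2 n (inner_self_eq_zero.1 h3)
  have horth : Pairwise fun m n => inner ℝ (Q (Q (v m))) (Q (Q (v n))) = (0 : ℝ) := by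
    intro m n hmn
    have h2 : inner ℝ (P (Q (v m))) (Q (Q (v n))) =
        -(((m : ℝ) + 1) * inner ℝ (Q (Q (v m))) (Q (Q (v n)))) := by
      rw [hw, inner_neg_left, real_inner_smul_left]
    have h3 : inner ℝ (P (Q (v m))) (Q (Q (v n))) =
        -(((n : ℝ) + 1) * inner ℝ (Q (Q (v m))) (Q (Q (v n)))) := by
      rw [hP, hPQ, hw, map_neg, map_smul, inner_neg_right, inner_smul_right, ← neg_neg
        (inner ℝ (Q (v m)) (Q (Q (Q (v n))))), ← hQ]
      ring
    have h4 : ((m : ℝ) - n) * inner ℝ (Q (Q (v m))) (Q (Q (v n))) = 0 := by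
      rw [h2] at h3
      linarith
    rcases mul_eq_zero.1 h4 with h | h
    · exfalso
      apply hmn
      exact_mod_cast sub_eq_zero.1 h
    · exact h
  have hli := linearIndependent_of_ne_zero_of_inner_eq_zero (𝕜 := ℝ) hne horth
  have := hli.finite
  exact not_finite ℕ

/-- self-centralizing abelian subspaces contain regular elements -/
theorem exists_reg [FiniteDimensional ℝ V] (W : Submodule ℝ V) (hW : Ab L W) (hW' : SC L W) :
    ∃ B ∈ W, ∀ x, L.b B x = 0 → x ∈ W := by
  have hmin : ∃ B ∈ W, ∀ C ∈ W, LinearMap.ker (L.b C) ≤ LinearMap.ker (L.b B) →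
      LinearMap.ker (L.b B) ≤ LinearMap.ker (L.b C) := by
    have hwf : WellFounded ((· < ·) : Submodule ℝ V → Submodule ℝ V → Prop) := wellFounded_lt
    obtain ⟨M, ⟨B, hB, rfl⟩, h⟩ := hwf.has_min {M | ∃ B ∈ W, LinearMap.ker (L.b B) = M}
      ⟨_, 0, W.zero_mem, rfl⟩
    refine ⟨B, hB, fun C hC hle => ?_⟩
    by_contra hcon
    exact h _ ⟨C, hC, rfl⟩ (lt_of_le_not_ge hle hcon)
  obtain ⟨B, hB, h⟩ := hmin
  have hsk : ∀ C x y, inner ℝ (L.b C x) y = - inner ℝ x (L.b C y) := by
    intro C x y
    rw [L.skew, inner_neg_left, L.inv]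
  refine ⟨B, hB, fun x hx => hW' x fun C hC => ?_⟩
  obtain ⟨e, he, h1⟩ := reg_aux (L.b B) (L.b C) (hsk B) (hsk C) (fun z => by
    rw [L.jac, hW B hB C hC]; simp)
  have h2 : LinearMap.ker (L.b (B + e • C)) ≤ LinearMap.ker (L.b B) := by
    intro v hv
    rw [LinearMap.mem_ker, map_add, map_smul, LinearMap.add_apply, LinearMap.smul_apply] at hv
    have h3 := h1 v hv
    rw [h3, smul_zero, add_zero] at hv
    exact hv
  have h3 := h _ (W.add_mem hB (W.smul_mem e hC)) h2
  have h4 : L.b (B + e • C) x = 0 := h3 hx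
  rw [map_add, map_smul, LinearMap.add_apply, LinearMap.smul_apply, hx, zero_add] at h4
  exact (smul_eq_zero.1 h4).resolve_left he

end Pool.Agent.Y55.TIG
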