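import Pool.Agent.Y55.TIG.A
import Pool.Agent.TH109.CG.AdG

set_option autoImplicit false

/-!
Compact matrix groups with nonabelian Lie algebra have proper closed subgroups meeting every
conjugacy class: the normalizer of a maximal abelian subalgebra of the Lie algebra.
-/

open scoped ContDiff Matrix.Norms.Frobenius Topology
open Matrix Filter Pool.Agent.TH109.CG

noncomputable section

namespace Pool.Agent.Y55.TIG

variable {N : ℕ} (G : CGroup N)

/-- the invariant bracket of the Lie algebra -/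
def ib : IBrk (lieAlg G) where
  b := brkL G
  self := brk_self
  jac := brk_jac
  inv := fun x y z => ip_brk x y z

theorem ib_apply (X Y : lieAlg G) : ((ib G).b X Y : Mat N) = (X : Mat N) * Y - Y * X := rfl

theorem ib_zero_iff (X Y : lieAlg G) : (ib G).b X Y = 0 ↔ (X : Mat N) * Y = Y * X := by
  rw [Subtype.ext_iff, ib_apply]
  exact sub_eq_zero

variable {G}

theorem mul_star_self' {p : Mat N} (hp : p ∈ G.S) : p * star p = 1 :=
  Matrix.mem_unitaryGroup_iff.1 (G.unitary p hp)

theorem star_mul_self' {p : Mat N} (hp : p ∈ G.S) : star p * p = 1 :=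
  Matrix.mem_unitaryGroup_iff'.1 (G.unitary p hp)

theorem ad_mem {p : Mat N} (hp : p ∈ G.S) {A : Mat N} (hA : A ∈ lieAlg G) :
    p * A * star p ∈ lieAlg G := by
  intro t
  have hinv : star p = p⁻¹ := (Matrix.inv_eq_right_inv (mul_star_self' hp)).symm
  have hu : IsUnit p := IsUnit.of_mul_eq_one _ (mul_star_self' hp)
  have h1 : t • (p * A * star p) = p * (t • A) * p⁻¹ := by
    rw [hinv, Matrix.mul_smul, Matrix.smul_mul]
  rw [h1, Matrix.exp_conj _ _ hu, ← hinv]
  exact G.S.mul_mem (G.S.mul_mem hp (hA t)) (G.star_mem p hp)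

/-- conjugation by an element of the group -/
def Adm (p : Mat N) (hp : p ∈ G.S) : lieAlg G →ₗ[ℝ] lieAlg G where
  toFun X := ⟨p * X * star p, ad_mem hp X.2⟩
  map_add' X Y := by
    apply Subtype.ext
    show p * ((X : Mat N) + Y) * star p = p * X * star p + p * Y * star p
    rw [Matrix.mul_add, Matrix.add_mul]
  map_smul' c X := by
    apply Subtype.ext
    show p * (c • (X : Mat N)) * star p = c • (p * X * star p)
    rw [Matrix.mul_smul, Matrix.smul_mul]

theorem Adm_coe (p : Mat N) (hp : p ∈ G.S) (X : lieAlg G) :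
    (Adm p hp X : Mat N) = p * X * star p := rfl

theorem conj_mul {p : Mat N} (hp : p ∈ G.S) (X Y : Mat N) :
    (p * X * star p) * (p * Y * star p) = p * (X * Y) * star p := by
  calc (p * X * star p) * (p * Y * star p) = p * X * (star p * p) * Y * star p := by noncomm_ring
    _ = p * (X * Y) * star p := by rw [star_mul_self' hp]; noncomm_ring

theorem Adm_inner (p : Mat N) (hp : p ∈ G.S) (X Y : lieAlg G) :
    inner ℝ (Adm p hp X) (Adm p hp Y) = inner ℝ X Y := by
  show -(((p * X * star p) * (p * Y * star p)).trace.re) = -(((X : Mat N) * Y).trace.re)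
  rw [conj_mul hp, Matrix.trace_mul_comm, ← Matrix.mul_assoc, star_mul_self' hp, Matrix.one_mul]

theorem Adm_brk (p : Mat N) (hp : p ∈ G.S) (X Y : lieAlg G) :
    Adm p hp ((ib G).b X Y) = (ib G).b (Adm p hp X) (Adm p hp Y) := by
  apply Subtype.ext
  rw [ib_apply, Adm_coe, Adm_coe, Adm_coe, ib_apply, conj_mul hp, conj_mul hp, Matrix.mul_sub,
    Matrix.sub_mul]

theorem isCompact_S (G : CGroup N) : IsCompact (G.S : Set (Mat N)) := by
  have : ProperSpace (Mat N) := FiniteDimensional.proper ℝ (Mat N)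
  refine Metric.isCompact_of_isClosed_isBounded G.isClosed ?_
  rw [isBounded_iff_forall_norm_le]
  exact ⟨uB N, fun p hp => norm_unitary_le (G.unitary p hp)⟩

theorem hasDerivAt_conj (Y B : Mat N) :
    HasDerivAt (fun u : ℝ => NormedSpace.exp (u • Y) * B * NormedSpace.exp (-(u • Y)))
      (Y * B - B * Y) 0 := by
  have h1 : HasDerivAt (fun u : ℝ => NormedSpace.exp (u • Y)) Y 0 := by
    have := hasDerivAt_exp Y 0
    simpa using this
  have h2 : HasDerivAt (fun u : ℝ => NormedSpace.exp (-(u • Y))) (-Y) 0 := by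
    have := hasDerivAt_exp (-Y) 0
    simpa using this
  have h3 := (h1.mul_const B).mul h2
  simp only [zero_smul, NormedSpace.exp_zero, neg_zero, mul_one, one_mul] at h3
  have h5 : Y * B + B * -Y = Y * B - B * Y := by noncomm_ring
  rw [h5] at h3
  exact h3

theorem star_exp_of_mem {Y : Mat N} (hY : Y ∈ lieAlg G) (s : ℝ) :
    star (NormedSpace.exp (s • Y)) = NormedSpace.exp (-(s • Y)) := by
  have h1 := skew G hY
  rw [star_eq_conjTranspose, ← Matrix.exp_conjTranspose, smul_skew h1]

/-- Hunt's argument -/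
theorem hunt (A B : lieAlg G) : ∃ (p : Mat N) (hp : p ∈ G.S), (ib G).b A (Adm p hp B) = 0 := by
  have hF : Continuous (fun p : Mat N => -(((A : Mat N) * (p * B * star p)).trace.re)) := by
    fun_prop
  obtain ⟨p, hp, hmax⟩ := (isCompact_S G).exists_isMaxOn ⟨1, G.S.one_mem⟩ hF.continuousOn
  refine ⟨p, hp, ?_⟩
  set B' : lieAlg G := Adm p hp B with hB'
  have hB'c : (B' : Mat N) = p * B * star p := rfl
  set Y : lieAlg G := (ib G).b B' A with hY
  have hYc : (Y : Mat N) = B' * A - A * B' := rfl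
  -- the derivative at the maximum vanishes
  have hlin : ∀ Z : Mat N → ℝ, True := fun _ => trivial
  let φ : Mat N →L[ℝ] ℝ := LinearMap.toContinuousLinearMap
    { toFun := fun M => -(((A : Mat N) * M).trace.re)
      map_add' := fun M M' => by rw [Matrix.mul_add, Matrix.trace_add, Complex.add_re]; ring
      map_smul' := fun c M => by
        rw [Matrix.mul_smul, Matrix.trace_smul, Complex.smul_re, RingHom.id_apply, smul_eq_mul,
          smul_eq_mul]
        ring }
  have hφ : ∀ M, φ M = -(((A : Mat N) * M).trace.re) := fun _ => rfl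
  have hd : HasDerivAt (fun u : ℝ => φ (NormedSpace.exp (u • (Y : Mat N)) * B' *
      NormedSpace.exp (-(u • (Y : Mat N))))) (φ ((Y : Mat N) * B' - B' * Y)) 0 :=
    φ.hasFDerivAt.comp_hasDerivAt (0 : ℝ) (hasDerivAt_conj (Y : Mat N) (B' : Mat N))
  have hloc : IsLocalMax (fun u : ℝ => φ (NormedSpace.exp (u • (Y : Mat N)) * B' *
      NormedSpace.exp (-(u • (Y : Mat N))))) 0 := by
    refine Filter.Eventually.of_forall fun u => ?_
    have h1 : NormedSpace.exp (u • (Y : Mat N)) * p ∈ G.S := G.S.mul_mem (Y.2 u) hp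
    have h2 := hmax h1
    have h3 : (NormedSpace.exp (u • (Y : Mat N)) * p) * B * star (NormedSpace.exp (u • (Y : Mat N)) * p)
        = NormedSpace.exp (u • (Y : Mat N)) * B' * NormedSpace.exp (-(u • (Y : Mat N))) := by
      rw [star_mul, star_exp_of_mem Y.2, hB'c]
      noncomm_ring
    have h4 : -(((A : Mat N) * ((NormedSpace.exp (u • (Y : Mat N)) * p) * B *
      star (NormedSpace.exp (u • (Y : Mat N)) * p))).trace.re) ≤
      -(((A : Mat N) * (p * B * star p)).trace.re) := h2
    rw [h3] at h4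
    simp only [hφ]
    rw [zero_smul, neg_zero, NormedSpace.exp_zero, one_mul, mul_one, hB'c]
    rw [hB'c] at h4
    exact h4
  have h0 : φ ((Y : Mat N) * B' - B' * Y) = 0 := hloc.hasDerivAt_eq_zero hd
  have h1 : ((A : Mat N) * ((Y : Mat N) * B' - B' * Y)).trace = ((Y : Mat N) * Y).trace := by
    have e1 : ((A : Mat N) * ((Y : Mat N) * B' - B' * Y)).trace =
        ((A : Mat N) * Y * B').trace - ((A : Mat N) * B' * Y).trace := by
      rw [Matrix.mul_sub, Matrix.trace_sub, Matrix.mul_assoc, Matrix.mul_assoc]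
    have e2 : ((A : Mat N) * Y * B').trace = ((Y : Mat N) * (B' * A)).trace := by
      rw [Matrix.mul_assoc, Matrix.trace_mul_comm, Matrix.mul_assoc]
    have e3 : ((A : Mat N) * B' * Y).trace = ((Y : Mat N) * (A * B')).trace :=
      Matrix.trace_mul_comm _ _
    rw [e1, e2, e3, ← Matrix.trace_sub, ← Matrix.mul_sub, ← hYc]
  rw [hφ, h1] at h0
  have h2 : inner ℝ Y Y = (0 : ℝ) := h0
  have h3 : Y = 0 := inner_self_eq_zero.1 h2
  rw [(ib G).skew, ← hY, h3, neg_zero]

theorem bracket_mem_of_conj_mem (W : Submodule ℝ (Mat N)) (X T : Mat N)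
    (h : ∀ s : ℝ, NormedSpace.exp (s • X) * T * NormedSpace.exp (-(s • X)) ∈ W) :
    X * T - T * X ∈ W := by
  have hcl : IsClosed (W : Set (Mat N)) := Submodule.closed_of_finiteDimensional _
  have h4 := (hasDerivAt_conj X T).tendsto_slope_zero
  refine hcl.mem_of_tendsto h4 (Filter.Eventually.of_forall fun t => ?_)
  exact W.smul_mem _ (W.sub_mem (h _) (h _))

/-- a compact matrix group with nonabelian Lie algebra has a proper closed subgroup which meets
every conjugacy class -/
theorem exists_meet (G : CGroup N) (hnc : ∃ X ∈ lieAlg G, ∃ Y ∈ lieAlg G, X * Y ≠ Y * X) :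
    ∃ H : Set (Mat N), H ⊆ G.S ∧ IsClosed H ∧ 1 ∈ H ∧ (∀ p ∈ H, ∀ q ∈ H, p * q ∈ H) ∧
      (∀ p ∈ H, star p ∈ H) ∧ (∀ p ∈ G.S, ∃ q ∈ G.S, q * p * star q ∈ H) ∧ ∃ p ∈ G.S, p ∉ H := by
  obtain ⟨t, ht1, -, ht3⟩ := exists_inv (ib G) LinearMap.id (fun _ _ => rfl) (fun _ _ => rfl)
  obtain ⟨A, hA, hA'⟩ := exists_reg (ib G) t ht1 ht3
  set t' : Submodule ℝ (Mat N) := t.map (lieAlg G).subtype with ht'
  have hmem : ∀ X : lieAlg G, (X : Mat N) ∈ t' ↔ X ∈ t := by
    intro X
    constructor
    · rintro ⟨Y, hY, hXY⟩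
      have : Y = X := Subtype.ext hXY
      rwa [← this]
    · intro hX
      exact ⟨X, hX, rfl⟩
  have hsub : ∀ X ∈ t', X ∈ lieAlg G := by
    rintro X ⟨Y, -, rfl⟩
    exact Y.2
  have hcl : IsClosed (t' : Set (Mat N)) := Submodule.closed_of_finiteDimensional _
  refine ⟨{p | p ∈ G.S ∧ ∀ X ∈ t', p * X * star p ∈ t'}, fun p hp => hp.1, ?_, ?_, ?_, ?_, ?_, ?_⟩
  · have h1 : {p : Mat N | p ∈ G.S ∧ ∀ X ∈ t', p * X * star p ∈ t'} =
        (G.S : Set (Mat N)) ∩ ⋂ X ∈ t', {p : Mat N | p * X * star p ∈ t'} := by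
      ext p
      simp
    rw [h1]
    refine G.isClosed.inter (isClosed_biInter fun X _ => ?_)
    exact hcl.preimage (by fun_prop)
  · refine ⟨G.S.one_mem, fun X hX => ?_⟩
    rw [one_mul, star_one, mul_one]
    exact hX
  · rintro p ⟨hp, hp'⟩ q ⟨hq, hq'⟩
    refine ⟨G.S.mul_mem hp hq, fun X hX => ?_⟩
    have h1 : p * q * X * star (p * q) = p * (q * X * star q) * star p := by
      rw [star_mul]; noncomm_ring
    rw [h1]
    exact hp' _ (hq' _ hX)
  · rintro p ⟨hp, hp'⟩
    refine ⟨G.star_mem p hp, fun X hX => ?_⟩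
    -- surjectivity of the restriction
    let f : Mat N →ₗ[ℝ] Mat N :=
      { toFun := fun X => p * X * star p
        map_add' := fun X Y => by rw [Matrix.mul_add, Matrix.add_mul]
        map_smul' := fun c X => by rw [Matrix.mul_smul, Matrix.smul_mul]; rfl }
    have hf : ∀ X, f X = p * X * star p := fun _ => rfl
    have hback : ∀ X : Mat N, star p * (p * X * star p) * p = X := by
      intro X
      calc star p * (p * X * star p) * p = (star p * p) * X * (star p * p) := by noncomm_ring
        _ = X := by rw [star_mul_self' hp, one_mul, mul_one]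
    have hinj : Function.Injective (f.restrict (p := t') (q := t') hp') := by
      intro u v huv
      have h1 : p * (u : Mat N) * star p = p * (v : Mat N) * star p := congrArg Subtype.val huv
      apply Subtype.ext
      rw [← hback u, h1, hback]
    obtain ⟨Y, hY⟩ := LinearMap.surjective_of_injective hinj ⟨X, hX⟩
    have h2 : p * (Y : Mat N) * star p = X := congrArg Subtype.val hY
    rw [star_star, ← h2, hback]
    exact Y.2
  · intro p hp
    obtain ⟨W, hW1, hW2, hW3⟩ := exists_inv (ib G) (Adm p hp) (Adm_inner p hp) (Adm_brk p hp)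
    obtain ⟨B, hB, hB'⟩ := exists_reg (ib G) W hW1 hW3
    obtain ⟨q, hq, hAB⟩ := hunt A B
    have hqs : star q ∈ G.S := G.star_mem q hq
    -- the inverse of the conjugation by `q`
    have hinv : ∀ X : lieAlg G, Adm q hq (Adm (star q) hqs X) = X := by
      intro X
      apply Subtype.ext
      rw [Adm_coe, Adm_coe, star_star]
      calc q * (star q * (X : Mat N) * q) * star q = (q * star q) * X * (q * star q) := by
            noncomm_ring
        _ = X := by rw [mul_star_self' hq, one_mul, mul_one]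
    have hinv' : ∀ X : lieAlg G, Adm (star q) hqs (Adm q hq X) = X := by
      intro X
      apply Subtype.ext
      rw [Adm_coe, Adm_coe, star_star]
      calc star q * (q * (X : Mat N) * star q) * q = (star q * q) * X * (star q * q) := by
            noncomm_ring
        _ = X := by rw [star_mul_self' hq, one_mul, mul_one]
    have hBt : Adm q hq B ∈ t := hA' _ hAB
    have hAW : Adm (star q) hqs A ∈ W := by
      apply hB'
      rw [← hinv' B, ← Adm_brk, (ib G).skew, hAB, neg_zero, map_zero]
    have h1 : ∀ X ∈ W, Adm q hq X ∈ t := by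
      intro X hX
      apply hA'
      rw [← hinv A, ← Adm_brk, hW1 _ hAW X hX, map_zero]
    have h2 : ∀ X ∈ t, Adm (star q) hqs X ∈ W := by
      intro X hX
      apply hB'
      rw [← hinv' B, ← Adm_brk, ht1 _ hBt X hX, map_zero]
    refine ⟨q, hq, G.S.mul_mem (G.S.mul_mem hq hp) hqs, fun X hX => ?_⟩
    have h3 : q * p * star q * X * star (q * p * star q) =
        (Adm q hq (Adm p hp (Adm (star q) hqs ⟨X, hsub X hX⟩)) : Mat N) := by
      rw [Adm_coe, Adm_coe, Adm_coe, star_mul, star_mul, star_star]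
      noncomm_ring
    rw [h3, hmem]
    apply h1
    apply hW2
    apply h2
    rw [← hmem]
    exact hX
  · by_contra hcon
    push Not at hcon
    obtain ⟨X, hX, Y, hY, hXY⟩ := hnc
    have hcen : ∀ (Z T : lieAlg G), T ∈ t → (ib G).b T Z = 0 := by
      intro Z T hT
      have h1 : (Z : Mat N) * T - T * Z ∈ t' := by
        apply bracket_mem_of_conj_mem
        intro s
        have h2 := (hcon _ (Z.2 s)).2 T ((hmem T).2 hT)
        rwa [star_exp_of_mem Z.2] at h2
      have h3 : (ib G).b Z T ∈ t := by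
        rw [← hmem]
        exact h1
      have h4 : inner ℝ ((ib G).b Z T) ((ib G).b Z T) = (0 : ℝ) := by
        rw [(ib G).inv, ht1 _ hT _ h3, inner_zero_right]
      rw [(ib G).skew, inner_self_eq_zero.1 h4, neg_zero]
    have hall : ∀ Z : lieAlg G, Z ∈ t := fun Z => ht3 Z fun T hT => hcen Z T hT
    have h5 := ht1 ⟨X, hX⟩ (hall _) ⟨Y, hY⟩ (hall _)
    rw [ib_zero_iff] at h5
    exact hXY h5

end Pool.Agent.Y55.TIG
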